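import Pool.Agent.H26.ES.Targets
import Pool.Agent.H60.LVP.NL

/-!
# The critical mean value with a power of the logarithm saved: row NLP

A star which is not lonely has a dense grid. Copy of the proof in `Pool.Agent.H60.LVP.NL` for stars
whose good lines depend on the position of the cell.
-/

set_option autoImplicit false

open Finset MeasureTheory

namespace Pool.Agent.H29.EST

open Pool.Agent.H24.CL Pool.Agent.H24.LV Pool.Agent.H26.ES Pool.Agent.H60.LVP

theorem pf_NLP (hCO : L_CO) : T_NLP := by
  classical
  intro k S V Ge Gd P m τ Ω kap q hqS hSD b x hx hStar hL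
  have hpr : ∀ p ∈ insert q S, p.Prime := fun p hp => (hSD.pr p hp).1
  have hq : q.Prime := hpr q (Finset.mem_insert_self _ _)
  have hS : ∀ p ∈ S, p.Prime := fun p hp => hpr p (Finset.mem_insert_of_mem hp)
  have hD : 0 < DS S := DS_pos S hS
  have hco := DS_coprime S q hqS hq hS
  unfold LonelyP at hL
  have h1 := fun h2 => hL ⟨hStar, h2⟩
  replace h1 := le_of_not_gt h1
  set Zs := (range q).filter fun z => StarP (insert q S) V Gd b (x % DS S + DS S * z) ∧
      hd (DS S) V (phi q (x % q) b) ≤
        hd (DS S) V (phi q ((x % DS S + DS S * z) % q) b) with hZs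
  rw [DS_insert S q hqS, hd_mul hCO q (DS S) hq.pos hD]
  set h0 := hd (DS S) V (phi q (x % q) b) with hh0
  have hh0' : 0 ≤ h0 := by
    rw [hh0]
    unfold hd
    positivity
  have hinj : Set.InjOn (fun z => (x % DS S + DS S * z) % q) Zs := by
    intro z hz z' hz' he
    have hz1 : z < q := by
      have := (Finset.mem_filter.1 hz).1
      exact Finset.mem_range.1 this
    have hz1' : z' < q := by
      have := (Finset.mem_filter.1 hz').1
      exact Finset.mem_range.1 this
    have e1 : x % DS S + DS S * z ≡ x % DS S + DS S * z' [MOD q] := he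
    have e2 : DS S * z ≡ DS S * z' [MOD q] := Nat.ModEq.add_left_cancel' _ e1
    have e3 : z ≡ z' [MOD q] := Nat.ModEq.cancel_left_of_coprime (by
      rw [Nat.gcd_comm]; exact hco) e2
    exact Nat.ModEq.eq_of_lt_of_lt e3 hz1 hz1'
  have h2 : (Zs.card : ℝ) * h0 ≤ ∑ r ∈ range q, hd (DS S) V (phi q r b) := by
    have h3 : Zs.image (fun z => (x % DS S + DS S * z) % q) ⊆ range q := by
      intro r hr
      obtain ⟨z, _, rfl⟩ := Finset.mem_image.1 hr
      exact Finset.mem_range.2 (Nat.mod_lt _ hq.pos)
    have h4 : ∑ r ∈ Zs.image (fun z => (x % DS S + DS S * z) % q), hd (DS S) V (phi q r b) ≤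
        ∑ r ∈ range q, hd (DS S) V (phi q r b) := by
      apply Finset.sum_le_sum_of_subset_of_nonneg h3
      intro r _ _
      unfold hd
      positivity
    refine le_trans ?_ h4
    rw [Finset.sum_image hinj, ← nsmul_eq_mul]
    apply Finset.card_nsmul_le_sum
    intro z hz
    exact (Finset.mem_filter.1 hz).2.2
  have hq' : (0 : ℝ) < q := by exact_mod_cast hq.pos
  rw [one_div, inv_mul_eq_div, le_div_iff₀ hq']
  calc kap * h0 * q = kap * q * h0 := by ring
    _ ≤ (Zs.card : ℝ) * h0 := mul_le_mul_of_nonneg_right h1 hh0'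
    _ ≤ _ := h2

end Pool.Agent.H29.EST
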